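import Mathlib
import Pool.Agent.H48.Cum

set_option autoImplicit false

namespace Pool.Agent.Results.MP_e4803a_nt.Quad

open MeasureTheory ProbabilityTheory Filter Topology Polynomial Pool.Agent.H48.Cum

/-- `m`-th cumulant of `X` on `[0,1]` with Lebesgue measure. -/
noncomputable def cumulant (m : ℕ) (X : ℝ → ℝ) : ℝ :=
  iteratedDeriv m (fun t : ℝ => Real.log (∫ ω in Set.Icc (0 : ℝ) 1, Real.exp (t * X ω))) 0

/-- `S_n(ω) = ∑_{k=1}^n cos(2π ⌊η^k⌋ ω)`. -/
noncomputable def S (η : ℝ) (n : ℕ) (ω : ℝ) : ℝ :=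
  ∑ k ∈ Finset.Icc 1 n, Real.cos (2 * Real.pi * (⌊η ^ k⌋ : ℤ) * ω)

/-- Perron number: a real algebraic integer `> 1` whose other conjugates are smaller. -/
def IsPerron (η : ℝ) : Prop :=
  IsIntegral ℤ η ∧ 1 < η ∧ ∀ z : ℂ, aeval z (minpoly ℚ η) = 0 → z ≠ η → ‖z‖ < η

theorem cum6 (X : ℝ → ℝ) (hX : Continuous X) (m : ℕ → ℝ)
    (hm : ∀ k, ∫ ω in Set.Icc (0 : ℝ) 1, X ω ^ k = m k) (h1 : m 1 = 0) :
    cumulant 6 X = m 6 - 15 * (m 2 * m 4) - 10 * (m 3 * m 3) + 30 * (m 2 * m 2 * m 2) := by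
  obtain ⟨μ, hμ⟩ : ∃ μ : Measure ℝ, μ = volume.restrict (Set.Icc (0 : ℝ) 1) := ⟨_, rfl⟩
  have : IsProbabilityMeasure μ := ⟨by simp [hμ]⟩
  have hi : ∀ t : ℝ, Integrable (fun ω => Real.exp (t * X ω)) μ := by
    intro t; rw [hμ]
    exact (by fun_prop : Continuous fun ω => Real.exp (t * X ω)).integrableOn_Icc
  have hs : ∀ t : ℝ, t ∈ interior (integrableExpSet X μ) := by
    intro t
    have : integrableExpSet X μ = Set.univ := Set.eq_univ_of_forall hi
    rw [this]; simp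
  have hc : cumulant 6 X = iteratedDeriv 6 (cgf X μ) 0 := by rw [hμ]; rfl
  have hM : ∀ k, iteratedDeriv k (mgf X μ) 0 = m k := by
    intro k; rw [iteratedDeriv_mgf_zero (hs 0), hμ, ← hm k]; rfl
  have hd : deriv (mgf X μ) = deriv (cgf X μ) * mgf X μ := by
    funext t
    rw [Pi.mul_apply, deriv_cgf (hs t), deriv_mgf (hs t), div_mul_cancel₀ _ (mgf_pos (hi t)).ne']
  have hr : ∀ n : ℕ, m (n + 1) = ∑ i ∈ Finset.range (n + 1),
      n.choose i * iteratedDeriv (i + 1) (cgf X μ) 0 * m (n - i) := by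
    intro n
    rw [← hM, iteratedDeriv_succ', hd, iteratedDeriv_mul (analyticAt_cgf (hs 0)).deriv.contDiffAt
      (analyticAt_mgf (hs 0)).contDiffAt]
    simp only [hM, iteratedDeriv_succ']
  have m0 : m 0 = 1 := by rw [← hM]; simp
  have r0 := hr 0
  have r1 := hr 1
  have r2 := hr 2
  have r3 := hr 3
  have r5 := hr 5
  simp only [Finset.sum_range_succ, Finset.sum_range_zero] at r0 r1 r2 r3 r5
  norm_num [Nat.choose, m0, h1] at r0 r1 r2 r3 r5
  rw [hc]
  obtain ⟨k1, e1⟩ : ∃ k, k = deriv (cgf X μ) 0 := ⟨_, rfl⟩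
  obtain ⟨k2, e2⟩ : ∃ k, k = iteratedDeriv 2 (cgf X μ) 0 := ⟨_, rfl⟩
  obtain ⟨k3, e3⟩ : ∃ k, k = iteratedDeriv 3 (cgf X μ) 0 := ⟨_, rfl⟩
  obtain ⟨k4, e4⟩ : ∃ k, k = iteratedDeriv 4 (cgf X μ) 0 := ⟨_, rfl⟩
  obtain ⟨k6, e6⟩ : ∃ k, k = iteratedDeriv 6 (cgf X μ) 0 := ⟨_, rfl⟩
  simp only [← e1, ← e2, ← e3, ← e4, ← e6] at r0 r1 r2 r3 r5 ⊢
  subst r0
  simp only [zero_mul, mul_zero, zero_add, add_zero] at r1 r2 r3 r5
  rw [r5, r3, r2, r1]; ring

theorem intE (k : ℤ) : ∫ ω in Set.Icc (0 : ℝ) 1, Complex.exp (2 * Real.pi * Complex.I * k * ω) =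
    (ind (k = 0) : ℝ) := by
  rw [integral_Icc_eq_integral_Ioc, ← intervalIntegral.integral_of_le zero_le_one]
  by_cases h : k = 0
  · simp [h, ind_true]
  · have hk : (2 * Real.pi * Complex.I * k : ℂ) ≠ 0 := by
      simp [h, Real.pi_ne_zero]
    rw [integral_exp_mul_complex hk, ind_false h]
    have : Complex.exp (2 * Real.pi * Complex.I * k * ((1 : ℝ) : ℂ)) = 1 := by
      rw [← Complex.exp_int_mul_two_pi_mul_I k]; congr 1; push_cast; ring
    rw [this]; simp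

/-- signed frequencies -/
noncomputable def xx (η : ℝ) (n : ℕ) (i : Fin n × Bool) : ℤ :=
  if i.2 then ⌊η ^ (i.1.val + 1)⌋ else -⌊η ^ (i.1.val + 1)⌋

theorem S_eq (η : ℝ) (n : ℕ) (ω : ℝ) : ((S η n ω : ℝ) : ℂ) =
    ∑ i : Fin n × Bool, (1 / 2) * Complex.exp (2 * Real.pi * Complex.I * (xx η n i) * ω) := by
  rw [Fintype.sum_prod_type, S]
  have : Finset.Icc 1 n = (Finset.range n).map ⟨fun k => k + 1, add_left_injective 1⟩ := by
    ext k; simp only [Finset.mem_Icc, Finset.mem_map, Finset.mem_range, Function.Embedding.coeFn_mk]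
    exact ⟨fun h => ⟨k - 1, by omega, by omega⟩, by rintro ⟨a, h, rfl⟩; omega⟩
  rw [this, Finset.sum_map, Finset.sum_range]
  push_cast
  refine Finset.sum_congr rfl fun k _ => ?_
  simp only [Fintype.sum_bool, xx, if_true, Function.Embedding.coeFn_mk, Complex.cos]
  push_cast
  ring_nf

theorem moment (η : ℝ) (n k : ℕ) :
    ∫ ω in Set.Icc (0 : ℝ) 1, S η n ω ^ k = (1 / 2) ^ k * Z (xx η n) k := by
  apply Complex.ofReal_injective
  rw [← integral_complex_ofReal]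
  have : ∀ ω : ℝ, ((S η n ω ^ k : ℝ) : ℂ) = ∑ t : Fin k → Fin n × Bool, (1 / 2) ^ k *
      Complex.exp (2 * Real.pi * Complex.I * ((∑ p, xx η n (t p) : ℤ) : ℂ) * ω) := by
    intro ω
    rw [Complex.ofReal_pow, S_eq, Fintype.sum_pow]
    refine Finset.sum_congr rfl fun t _ => ?_
    rw [Finset.prod_mul_distrib, ← Complex.exp_sum]
    push_cast
    simp [Finset.mul_sum, Finset.sum_mul]
  simp only [this]
  rw [integral_finsetSum _ fun t _ => (by fun_prop : Continuous _).integrableOn_Icc]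
  simp only [integral_const_mul, intE, Z]
  push_cast
  rw [Finset.mul_sum]

/-- the base -/
noncomputable def eta : ℝ := Real.sqrt Real.goldenRatio

theorem eta_sq : eta ^ 2 = Real.goldenRatio := Real.sq_sqrt Real.goldenRatio_pos.le

theorem eta_ge : 1.27 ≤ eta := by
  apply Real.le_sqrt_of_sq_le
  have := Real.goldenRatio_sq
  have := Real.one_lt_goldenRatio
  nlinarith

theorem eta1 : 1 ≤ eta := by linarith [eta_ge]

theorem a_pos (k : ℕ) : 1 ≤ ⌊eta ^ k⌋ := by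
  rw [Int.le_floor]; exact_mod_cast one_le_pow₀ eta1

theorem a_mono {k l : ℕ} (h : k ≤ l) : ⌊eta ^ k⌋ ≤ ⌊eta ^ l⌋ :=
  Int.floor_le_floor (pow_le_pow_right₀ eta1 h)

theorem a_gap {k l : ℕ} (h : k + 24 ≤ l) : 144 * ⌊eta ^ k⌋ < ⌊eta ^ l⌋ := by
  have h1 : eta ^ (k + 24) ≤ eta ^ l := pow_le_pow_right₀ eta1 h
  have h2 : (1.27 : ℝ) ^ 24 ≤ eta ^ 24 := pow_le_pow_left₀ (by norm_num) eta_ge 24
  have h3 : (1 : ℝ) ≤ eta ^ k := one_le_pow₀ eta1
  have h4 := Int.floor_le (eta ^ k)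
  have h5 := Int.lt_floor_add_one (eta ^ l)
  have h6 : (146 : ℝ) ≤ eta ^ 24 := le_trans (by norm_num) h2
  rw [pow_add] at h1
  have : (144 * ⌊eta ^ k⌋ : ℝ) < ⌊eta ^ l⌋ := by nlinarith
  exact_mod_cast this

theorem a_sep (k l : ℕ) (h : ⌊eta ^ l⌋ < ⌊eta ^ k⌋) :
    ⌊eta ^ k⌋ ≤ 12 * (⌊eta ^ k⌋ - ⌊eta ^ l⌋) := by
  have hlk : l + 1 ≤ k := by
    by_contra hn
    have := a_mono (show k ≤ l by omega)
    omega
  by_cases h12 : ⌊eta ^ k⌋ ≤ 12
  · omega
  have h1 : eta ^ (l + 1) ≤ eta ^ k := pow_le_pow_right₀ eta1 hlk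
  have h3 : (1 : ℝ) ≤ eta ^ l := one_le_pow₀ eta1
  have h4 := Int.floor_le (eta ^ l)
  have h5 := Int.lt_floor_add_one (eta ^ k)
  have h6 : (13 : ℝ) ≤ ⌊eta ^ k⌋ := by exact_mod_cast (show (13 : ℤ) ≤ ⌊eta ^ k⌋ by omega)
  rw [pow_succ] at h1
  have h7 : eta ^ l * 1.27 ≤ eta ^ l * eta := by gcongr; exact eta_ge
  have : (12 * ⌊eta ^ l⌋ : ℝ) ≤ 11 * ⌊eta ^ k⌋ := by nlinarith
  have : 12 * ⌊eta ^ l⌋ ≤ 11 * ⌊eta ^ k⌋ := by exact_mod_cast this
  omega

theorem xx_abs (n : ℕ) (i : Fin n × Bool) :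
    xx eta n i = ⌊eta ^ (i.1.val + 1)⌋ ∨ xx eta n i = -⌊eta ^ (i.1.val + 1)⌋ := by
  unfold xx; split_ifs <;> simp

theorem xx_ne (n : ℕ) (i : Fin n × Bool) : xx eta n i ≠ 0 := by
  have := a_pos (i.1.val + 1)
  have := xx_abs n i
  omega

theorem xx_sep (n : ℕ) : Sep (xx eta n) := by
  intro i j h
  have := a_pos (i.1.val + 1)
  have := a_pos (j.1.val + 1)
  have := xx_abs n i
  have := xx_abs n j
  have := a_sep (i.1.val + 1) (j.1.val + 1)
  have := a_sep (j.1.val + 1) (i.1.val + 1)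
  omega

open Classical in
theorem sum_ind {I : Type} [Fintype I] (P : I → Prop) :
    ∑ i, ind (P i) = ((Finset.univ.filter P).card : ℝ) := by
  simp [ind]

theorem near (n : ℕ) (v : ℤ) : ∑ i, ind (nr v (xx eta n i)) ≤ 98 := by
  classical
  rw [sum_ind]
  rcases (Finset.univ.filter fun i => nr v (xx eta n i)).eq_empty_or_nonempty with h | ⟨i, hi⟩
  · have := congrArg Finset.card h
    rw [Finset.card_empty] at this
    rw [show (Finset.univ.filter fun i => nr v (xx eta n i)).card = 0 from this]; norm_num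
  have hc : (Finset.univ.filter fun i => nr v (xx eta n i)).card ≤
      (Finset.Icc (i.1.val - 24) (i.1.val + 24) ×ˢ (Finset.univ : Finset Bool)).card := by
    refine Finset.card_le_card_of_injOn (fun j => (j.1.val, j.2)) ?_ ?_
    · intro j hj
      obtain ⟨j1, j2, j3⟩ : nr v (xx eta n j) := (Finset.mem_filter.1 hj).2
      obtain ⟨i1, i2, i3⟩ : nr v (xx eta n i) := (Finset.mem_filter.1 hi).2
      simp only [Finset.coe_product, Finset.coe_Icc, Finset.coe_univ, Set.mem_prod, Set.mem_Icc,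
        Set.mem_univ, and_true]
      have := a_pos (i.1.val + 1)
      have := a_pos (j.1.val + 1)
      have := xx_abs n i
      have := xx_abs n j
      have := @a_gap (i.1.val + 1) (j.1.val + 1)
      have := @a_gap (j.1.val + 1) (i.1.val + 1)
      omega
    · intro j _ j' _ h
      simp only [Prod.mk.injEq] at h
      exact Prod.ext (Fin.ext h.1) h.2
  rw [Finset.card_product, Nat.card_Icc, Finset.card_univ, Fintype.card_bool] at hc
  have : (Finset.univ.filter fun i => nr v (xx eta n i)).card ≤ 98 := by omega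
  exact_mod_cast this

theorem lucas (j : ℕ) : (∃ m : ℤ, Real.goldenRatio ^ j + Real.goldenConj ^ j = m) ∧
    ∃ m : ℤ, Real.goldenRatio ^ (j + 1) + Real.goldenConj ^ (j + 1) = m := by
  induction j with
  | zero => exact ⟨⟨2, by norm_num⟩, ⟨1, by simp⟩⟩
  | succ j ih =>
    obtain ⟨⟨a, ha⟩, ⟨b, hb⟩⟩ := ih
    refine ⟨⟨b, hb⟩, ⟨a + b, ?_⟩⟩
    push_cast
    rw [← ha, ← hb]
    linear_combination Real.goldenRatio ^ j * Real.goldenRatio_sq +
      Real.goldenConj ^ j * Real.goldenConj_sq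

theorem rel (p : ℕ) : ⌊eta ^ (4 * p + 1 + 1)⌋ + ⌊eta ^ (4 * p + 3 + 1)⌋ + 1 =
    ⌊eta ^ (4 * p + 5 + 1)⌋ := by
  obtain ⟨⟨a, ha⟩, ⟨b, hb⟩⟩ := lucas (2 * p + 1)
  have e1 : eta ^ (4 * p + 1 + 1) = Real.goldenRatio ^ (2 * p + 1) := by
    rw [← eta_sq, ← pow_mul]; congr 1; ring
  have e2 : eta ^ (4 * p + 3 + 1) = Real.goldenRatio ^ (2 * p + 1 + 1) := by
    rw [← eta_sq, ← pow_mul]; congr 1; ring
  have e3 : eta ^ (4 * p + 5 + 1) =
      Real.goldenRatio ^ (2 * p + 1) + Real.goldenRatio ^ (2 * p + 1 + 1) := by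
    rw [show 4 * p + 5 + 1 = 2 * (2 * p + 1 + 2) by ring, pow_mul, eta_sq]
    linear_combination Real.goldenRatio ^ (2 * p + 1) * Real.goldenRatio_sq
  have c1 := Real.goldenConj_neg
  have c2 := Real.neg_one_lt_goldenConj
  have u1 : Real.goldenConj ^ (2 * p + 1) < 0 := Odd.pow_neg ⟨p, rfl⟩ c1
  have u2 : -1 < Real.goldenConj ^ (2 * p + 1) := by
    have : (-Real.goldenConj) ^ (2 * p + 1) < 1 :=
      pow_lt_one₀ (by linarith) (by linarith) (by omega)
    rw [Odd.neg_pow ⟨p, rfl⟩] at this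
    linarith
  rw [e3, e1, e2]
  rw [pow_succ Real.goldenConj (2 * p + 1)] at hb
  obtain ⟨u, hu⟩ : ∃ u, u = Real.goldenConj ^ (2 * p + 1) := ⟨_, rfl⟩
  rw [← hu] at ha hb u1 u2
  have f1 : ⌊Real.goldenRatio ^ (2 * p + 1)⌋ = a := by
    rw [Int.floor_eq_iff]; constructor <;> linarith
  have f2 : ⌊Real.goldenRatio ^ (2 * p + 1 + 1)⌋ = b - 1 := by
    rw [Int.floor_eq_iff]; push_cast; constructor <;> nlinarith
  have f3 : ⌊Real.goldenRatio ^ (2 * p + 1) + Real.goldenRatio ^ (2 * p + 1 + 1)⌋ = a + b := by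
    rw [Int.floor_eq_iff]; push_cast; constructor <;> nlinarith
  rw [f1, f2, f3]; ring

theorem good6 (A B C A' B' C' : ℤ) (h1 : 1 ≤ A) (h2 : A ≤ B) (h3 : A + B + 1 = C) (h4 : C < A')
    (h5 : A' ≤ B') (h6 : A' + B' + 1 = C') (y : Fin 6 → ℤ) (y0 : y 0 = A) (y1 : y 1 = B)
    (y2 : y 2 = -C) (y3 : y 3 = -A') (y4 : y 4 = -B') (y5 : y 5 = C') : Good y := by
  unfold Good
  rw [Fin.sum_univ_six]
  omega

theorem goodCount (n N : ℕ) (h : 8 * N + 40 ≤ n) :
    (N : ℝ) ^ 2 ≤ ∑ t : Fin 6 → Fin n × Bool, ind (Good (fun p => xx eta n (t p))) := by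
  classical
  rw [sum_ind]
  have hc : (Finset.univ : Finset (Fin N × Fin N)).card ≤
      (Finset.univ.filter fun t : Fin 6 → Fin n × Bool => Good (fun p => xx eta n (t p))).card := by
    refine Finset.card_le_card_of_injOn (fun j => ![(⟨4 * j.1.val + 1, by omega⟩, true),
      (⟨4 * j.1.val + 3, by omega⟩, true), (⟨4 * j.1.val + 5, by omega⟩, false),
      (⟨4 * (N + 8 + j.2.val) + 1, by omega⟩, false),
      (⟨4 * (N + 8 + j.2.val) + 3, by omega⟩, false),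
      (⟨4 * (N + 8 + j.2.val) + 5, by omega⟩, true)]) ?_ ?_
    · intro j _
      simp only [Finset.coe_filter, Finset.mem_univ, true_and, Set.mem_ofPred_eq]
      have g := @a_gap (4 * j.1.val + 5 + 1) (4 * (N + 8 + j.2.val) + 1 + 1) (by omega)
      have g2 := a_pos (4 * j.1.val + 5 + 1)
      exact good6 _ _ _ _ _ _ (a_pos _) (a_mono (by omega)) (rel j.1.val) (by omega)
        (a_mono (by omega)) (rel (N + 8 + j.2.val)) _ rfl rfl rfl rfl rfl rfl
    · intro j _ j' _ h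
      have h0 := congrArg (fun t => (t 0).1.val) h
      have h3 := congrArg (fun t => (t 3).1.val) h
      change 4 * j.1.val + 1 = 4 * j'.1.val + 1 at h0
      change 4 * (N + 8 + j.2.val) + 1 = 4 * (N + 8 + j'.2.val) + 1 at h3
      exact Prod.ext (Fin.ext (by omega)) (Fin.ext (by omega))
  rw [Finset.card_univ, Fintype.card_prod, Fintype.card_fin] at hc
  have : ((N * N : ℕ) : ℝ) ≤ _ := Nat.cast_le.2 hc
  push_cast at this
  rw [sq]; exact this

theorem bound (n : ℕ) (hn : 100 ≤ n) :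
    ((n : ℝ) / 400 - 26 * 46656 * 64 * 98 ^ 5) / 64 ≤ cumulant 6 (S eta n) / n := by
  have hX : Continuous (S eta n) := by unfold S; fun_prop
  have z1 : Z (xx eta n) 1 = 0 := by
    refine Finset.sum_eq_zero fun t _ => ind_false ?_
    simpa using xx_ne n _
  rw [cum6 _ hX _ (moment eta n) (by simp [z1])]
  have h1 := lower (xx eta n) (xx_ne n) (xx_sep n) 98 (by norm_num) (near n)
  have h2 := goodCount n ((n - 40) / 8) (by omega)
  have h3 : (n : ℝ) ≤ 20 * (((n - 40) / 8 : ℕ) : ℝ) := by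
    exact_mod_cast (show n ≤ 20 * ((n - 40) / 8) by omega)
  have hn' : (0 : ℝ) < n := by exact_mod_cast (show 0 < n by omega)
  have h4 : ((n : ℝ) / 20) ^ 2 ≤ (((n - 40) / 8 : ℕ) : ℝ) ^ 2 :=
    pow_le_pow_left₀ (by positivity) (by linarith) 2
  rw [Fintype.card_prod, Fintype.card_fin, Fintype.card_bool] at h1
  push_cast at h1
  rw [le_div_iff₀ hn']
  nlinarith

theorem decomp (p : ℚ[X]) : ∃ a b c d : ℚ,
    aeval eta p = a + b * Real.goldenRatio + eta * (c + d * Real.goldenRatio) ∧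
    aeval (-eta) p = a + b * Real.goldenRatio - eta * (c + d * Real.goldenRatio) := by
  induction p using Polynomial.recOnHorner with
  | M0 => exact ⟨0, 0, 0, 0, by simp, by simp⟩
  | MC p r _ _ ih =>
    obtain ⟨a, b, c, d, h1, h2⟩ := ih
    refine ⟨a + r, b, c, d, ?_, ?_⟩
    · rw [map_add, h1, aeval_C]; simp; ring
    · rw [map_add, h2, aeval_C]; simp; ring
  | MX p _ ih =>
    obtain ⟨a, b, c, d, h1, h2⟩ := ih
    refine ⟨d, c + d, a, b, ?_, ?_⟩
    · rw [map_mul, h1, aeval_X]; push_cast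
      linear_combination (c + d * Real.goldenRatio) * eta_sq + d * Real.goldenRatio_sq
    · rw [map_mul, h2, aeval_X]; push_cast
      linear_combination (c + d * Real.goldenRatio) * eta_sq + d * Real.goldenRatio_sq

theorem indep (x : ℝ) (hx : Irrational x) (a b : ℚ) (h : a + b * x = 0) : a = 0 ∧ b = 0 := by
  by_cases hb : b = 0
  · subst hb; simpa using h
  · exfalso
    apply hx
    refine ⟨-a / b, ?_⟩
    have : (b : ℝ) ≠ 0 := by exact_mod_cast hb
    push_cast; field_simp; linarith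

theorem conj_root (p : ℚ[X]) (h : aeval eta p = 0) : aeval (-eta) p = 0 := by
  obtain ⟨a, b, c, d, h1, h2⟩ := decomp p
  rw [h] at h1
  have hs : (a + b * Real.goldenRatio) ^ 2 = Real.goldenRatio * (c + d * Real.goldenRatio) ^ 2 := by
    rw [← eta_sq] at h1 ⊢
    linear_combination (-(a + b * eta ^ 2 - eta * (c + d * eta ^ 2))) * h1
  obtain ⟨k1, k2⟩ := indep _ Real.goldenRatio_irrational (a ^ 2 + b ^ 2 - 2 * c * d - d ^ 2)
    (2 * a * b + b ^ 2 - c ^ 2 - 2 * c * d - 2 * d ^ 2) (by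
      push_cast
      linear_combination hs - (b ^ 2 - 2 * c * d - d ^ 2 - d ^ 2 * Real.goldenRatio) *
        Real.goldenRatio_sq)
  have k1' : (a : ℝ) ^ 2 + b ^ 2 - 2 * c * d - d ^ 2 = 0 := by exact_mod_cast k1
  have k2' : 2 * (a : ℝ) * b + b ^ 2 - c ^ 2 - 2 * c * d - 2 * d ^ 2 = 0 := by exact_mod_cast k2
  have ht : (a + b * Real.goldenConj) ^ 2 = Real.goldenConj * (c + d * Real.goldenConj) ^ 2 := by
    linear_combination k1' + Real.goldenConj * k2' +
      (b ^ 2 - 2 * c * d - d ^ 2 - d ^ 2 * Real.goldenConj) * Real.goldenConj_sq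
  have c1 := Real.goldenConj_neg
  have hz : c + d * Real.goldenConj = 0 := by
    by_contra hne
    have : 0 < (c + d * Real.goldenConj) ^ 2 := by positivity
    nlinarith [sq_nonneg (a + b * Real.goldenConj)]
  obtain ⟨rfl, rfl⟩ := indep _ Real.goldenConj_irrational c d hz
  rw [h2]; simpa using h1.symm

theorem notPerron : ¬ IsPerron eta := by
  rintro ⟨-, h1, h⟩
  have h2 := conj_root _ (minpoly.aeval ℚ eta)
  have h3 : aeval ((-eta : ℝ) : ℂ) (minpoly ℚ eta) = 0 := by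
    have := aeval_algebraMap_apply ℂ (-eta) (minpoly ℚ eta)
    rw [h2] at this
    simpa using this
  have h4 := h _ h3 (by
    intro e
    have : -eta = eta := by exact_mod_cast e
    linarith)
  rw [Complex.norm_real, Real.norm_eq_abs, abs_neg, abs_of_pos (by linarith)] at h4
  exact lt_irrefl _ h4

theorem alg : IsAlgebraic ℚ eta := by
  refine ⟨X ^ 4 - X ^ 2 - 1, ?_, ?_⟩
  · intro h
    have := congrArg (eval 0) h
    simp at this
  · simp only [map_sub, map_pow, aeval_X, map_one]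
    linear_combination (eta ^ 2 + Real.goldenRatio - 1) * eta_sq + Real.goldenRatio_sq

theorem result : ∃ η : ℝ, η = Real.sqrt Real.goldenRatio ∧ IsAlgebraic ℚ η ∧ 1 < η ∧
    ¬ IsPerron η ∧ Tendsto (fun n : ℕ => cumulant 6 (S η n) / n) atTop atTop ∧
    ¬ ∃ c : ℝ, Tendsto (fun n : ℕ => cumulant 6 (S η n) / n) atTop (𝓝 c) := by
  have ht : Tendsto (fun n : ℕ => cumulant 6 (S eta n) / n) atTop atTop := by
    refine tendsto_atTop_mono' atTop (Filter.eventually_atTop.2 ⟨100, bound⟩) ?_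
    refine Tendsto.atTop_div_const (by norm_num) ?_
    refine tendsto_atTop_add_const_right _ _ ?_
    exact Tendsto.atTop_div_const (by norm_num) tendsto_natCast_atTop_atTop
  refine ⟨eta, rfl, alg, by linarith [eta_ge], notPerron, ht, ?_⟩
  rintro ⟨c, hc⟩
  exact not_tendsto_nhds_of_tendsto_atTop ht c hc

end Pool.Agent.Results.MP_e4803a_nt.Quad
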